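import Pool.Agent.Lib.FacC.LevRes
import Pool.Agent.Lib.FacC.Main4

/-!
# MP_c83bfd_ag: four singular points `1, i, -1, -i`, cancellation of finite level

`R` is a subring of `ℂ`, finite over `ℤ`; `A = B / Δ`, `Δ` a divisor of `(z^4 - 1)^k` in `R[z]`,
`deg B ≤ deg Δ - 2` (infinity is a regular point).  To every prime `p` a level `j = lev p` is
attached, and factorial cancellation at `p` is required for `m = p, p^2, ..., p^j` only (`j = 0`:
nothing, `j = 1`: vanishing of the `p`-curvature), for `j = ∞` for all `m`.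
-/

open Polynomial

namespace Pool.Agent.Results.MP_c83bfd_ag.LevelsFourthRoots

open FacC

/-- `A_m = Aseq A m` is `A_0 = 1`, `A_(m+1) = A_m' + A_m A`; `valR M z` is the complex matrix
`M(z)`; `wl lev p` is `1/(p^j (p-1))` for `j = lev p` finite, and `0` for `lev p = ⊤`. -/
theorem result (R : Subring ℂ) [Module.Finite ℤ R] (n k : ℕ)
    (D : R[X]) (hD : D ∣ (X ^ 4 - 1) ^ k)
    (B : Matrix (Fin n) (Fin n) R[X]) (hB : ∀ i j, (B i j).natDegree + 2 ≤ D.natDegree)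
    (A : ℂ → Matrix (Fin n) (Fin n) ℂ)
    (hA : ∀ z : ℂ, D.eval₂ R.subtype z ≠ 0 → D.eval₂ R.subtype z • A z = valR B z)
    (lev : ℕ → ℕ∞)
    (hcost : ∀ F : Finset ℕ, (∀ p ∈ F, p.Prime) → ∏ p ∈ F, (p : ℝ) ^ (wl lev p) ≤ 2.17)
    (c : ℕ) (hc : c ≠ 0)
    (hfac : ∀ p : ℕ, p.Prime → ∃ N : R, IsCoprime N (p : R) ∧
      ∀ m : ℕ, 1 ≤ m → (∀ j : ℕ, lev p = j → ∃ i ≤ j, m = p ^ i) →
        ∃ Q : Matrix (Fin n) (Fin n) R[X], ∀ z : ℂ, D.eval₂ R.subtype z ≠ 0 →
          ((if lev p = ⊤ then (c : ℂ) else 1) * ((N : ℂ) * D.eval₂ R.subtype z) ^ m) •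
            Aseq A m z = ((p ^ padicValNat p m.factorial : ℕ) : ℂ) • valR Q z)
    (U : Set ℂ) (hU : IsOpen U) (hUc : IsPreconnected U)
    (hUD : ∀ z ∈ U, D.eval₂ R.subtype z ≠ 0)
    (y : ℂ → Fin n → ℂ) (hy : ∀ i, DifferentiableOn ℂ (fun z => y z i) U)
    (hsol : ∀ z ∈ U, ∀ i, deriv (fun x => y x i) z = ∑ j, A z i j * y z j) (i : Fin n) :
    ∃ P : ℂ[X][X], P ≠ 0 ∧ ∀ z ∈ U, (P.map (evalRingHom z)).eval (y z i) = 0 := by
  classical
  obtain ⟨C0, hC0⟩ := hD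
  set E : ℤ[X] := (X ^ 4 - 1) ^ k with hE
  have hmon : ((X ^ 4 - 1 : R[X]) ^ k).Monic := by
    have h1 : (X ^ 4 - 1 : R[X]).Monic := by
      have := monic_X_pow_sub_C (1 : R) (n := 4) (by norm_num)
      simpa using this
    exact h1.pow k
  have hdeg : ((X ^ 4 - 1 : R[X]) ^ k).natDegree = 4 * k := by
    have h1 : (X ^ 4 - 1 : R[X]).Monic := by
      have := monic_X_pow_sub_C (1 : R) (n := 4) (by norm_num)
      simpa using this
    have h2 : (X ^ 4 - 1 : R[X]).natDegree = 4 := by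
      have := natDegree_X_pow_sub_C (n := 4) (r := (1 : R))
      simpa using this
    rw [h1.natDegree_pow, h2]
    ring
  have hne : D * C0 ≠ 0 := by rw [← hC0]; exact hmon.ne_zero
  have hsum : D.natDegree + C0.natDegree = 4 * k := by
    rw [← natDegree_mul (left_ne_zero_of_mul hne) (right_ne_zero_of_mul hne), ← hC0, hdeg]
  have hk : 1 ≤ k := by
    have := hB i i
    omega
  obtain ⟨g, h, hg, hh, hg0, hh0, hpull, hd⟩ := map4_exists k hk
  have hEabs : |((E.eval 0 : ℤ) : ℝ)| = 1 := by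
    rw [hE]
    simp [abs_pow]
  refine levRes R n E hEabs ?_ D C0 ?_ B A hA ((4 * k - 2 : ℕ) : ℕ∞) ?_ g h hg hh hg0 hh0 hpull
    (Real.log 2.17) ?_ lev ?_ c hc hfac U hU hUc hUD y hy hsol i
  · intro p hp
    have : Fact p.Prime := ⟨hp⟩
    rw [hE]
    have h1 : ((X ^ 4 - 1) ^ k : ℤ[X]).map (Int.castRingHom (ZMod p)) = (X ^ 4 - 1) ^ k := by
      simp
    rw [h1]
    refine pow_ne_zero k ?_
    have h2 := (monic_X_pow_sub_C (1 : ZMod p) (n := 4) (by norm_num)).ne_zero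
    rwa [C_1] at h2
  · rw [← hC0, hE]
    simp
  · intro a b
    have h1 : (C0 * B a b).natDegree ≤ C0.natDegree + (B a b).natDegree := natDegree_mul_le
    have h2 := hB a b
    have h3 : (C0 * B a b).natDegree ≤ 4 * k - 2 := by omega
    exact_mod_cast h3
  · rw [Real.exp_log (by norm_num)]
    exact hd
  · intro F hF
    exact sum_le_log F hF _ _ (hcost F hF)

end Pool.Agent.Results.MP_c83bfd_ag.LevelsFourthRoots
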