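import Pool.Agent.Lib.FacC.LevRes
import Pool.Agent.Lib.FacC.Pull1
import Pool.Agent.Lib.FacC.Phi0

/-!
# MP_c83bfd_ag: singular points at the `e`-th roots of unity, cancellation of finite level

`R` is a subring of `ℂ`, finite over `ℤ`; `A = B / Δ` with `B` any matrix over `R[z]` and
`Δ` a divisor of `(z^e - 1)^k` in `R[z]`.  To every prime `p` a level `j = lev p` is attached, and
factorial cancellation at `p` is required for `m = p, p^2, ..., p^j` only (`j = 0`: nothing,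
`j = 1`: vanishing of the `p`-curvature), for `j = ∞` for all `m`.  If `∑_p log p / (p^j (p-1)) < log 16 / e`, then all local
holomorphic solutions are algebraic.
-/

open Polynomial

namespace Pool.Agent.Results.MP_c83bfd_ag.LevelsRootsOfUnity

open FacC

private lemma toC_pow (e k : ℕ) (z : ℂ) :
    (toC ((X ^ e - 1) ^ k : ℤ[X])).eval z = (z ^ e - 1) ^ k := by
  unfold toC
  simp

/-- `A_m = Aseq A m` is `A_0 = 1`, `A_(m+1) = A_m' + A_m A`; `valR M z` is the complex matrix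
`M(z)`; `wl lev p` is `1/(p^j (p-1))` for `j = lev p` finite, and `0` for `lev p = ⊤`. -/
theorem result (R : Subring ℂ) [Module.Finite ℤ R] (n e k : ℕ) (he : 1 ≤ e)
    (D : R[X]) (hD : D ∣ (X ^ e - 1) ^ k)
    (B : Matrix (Fin n) (Fin n) R[X]) (A : ℂ → Matrix (Fin n) (Fin n) ℂ)
    (hA : ∀ z : ℂ, D.eval₂ R.subtype z ≠ 0 → D.eval₂ R.subtype z • A z = valR B z)
    (lev : ℕ → ℕ∞) (θ : ℝ) (hθ : θ < 16)
    (hcost : ∀ F : Finset ℕ, (∀ p ∈ F, p.Prime) → ∏ p ∈ F, (p : ℝ) ^ ((e : ℝ) * wl lev p) ≤ θ)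
    (c : ℕ) (hc : c ≠ 0)
    (hfac : ∀ p : ℕ, p.Prime → ∃ N : R, IsCoprime N (p : R) ∧
      ∀ m : ℕ, 1 ≤ m → (∀ j : ℕ, lev p = j → ∃ i ≤ j, m = p ^ i) →
        ∃ Q : Matrix (Fin n) (Fin n) R[X], ∀ z : ℂ, D.eval₂ R.subtype z ≠ 0 →
          ((if lev p = ⊤ then (c : ℂ) else 1) * ((N : ℂ) * D.eval₂ R.subtype z) ^ m) •
            Aseq A m z = ((p ^ padicValNat p m.factorial : ℕ) : ℂ) • valR Q z)
    (U : Set ℂ) (hU : IsOpen U) (hUc : IsPreconnected U)
    (hUD : ∀ z ∈ U, D.eval₂ R.subtype z ≠ 0)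
    (y : ℂ → Fin n → ℂ) (hy : ∀ i, DifferentiableOn ℂ (fun z => y z i) U)
    (hsol : ∀ z ∈ U, ∀ i, deriv (fun x => y x i) z = ∑ j, A z i j * y z j) (i : Fin n) :
    ∃ P : ℂ[X][X], P ≠ 0 ∧ ∀ z ∈ U, (P.map (evalRingHom z)).eval (y z i) = 0 := by
  classical
  obtain ⟨C0, hC0⟩ := hD
  set E : ℤ[X] := (X ^ e - 1) ^ k with hE
  have hEv : ∀ z : ℂ, (toC E).eval z = (z ^ e - 1) ^ k := fun z => toC_pow e k z
  have hEabs : |((E.eval 0 : ℤ) : ℝ)| = 1 := by
    rw [hE]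
    have h0 : (0 : ℤ) ^ e = 0 := zero_pow (by omega)
    simp [h0, abs_pow]
  obtain ⟨φ, hφd, hφ0, hφ1, hφ'⟩ := phi0_exists e he
  have hpull : PullOK E ⊤ φ (fun _ => 1) := by
    refine pull1 E φ hφd fun w hw => ?_
    rw [hEv]
    exact pow_ne_zero k (sub_ne_zero.mpr (hφ1 w hw))
  have he0 : (0 : ℝ) < e := by exact_mod_cast he
  have hθ1 : 1 ≤ θ := by simpa using hcost ∅ (by simp)
  refine levRes R n E hEabs ?_ D C0 ?_ B A hA ⊤ (fun _ _ => le_top) φ (fun _ => 1) hφd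
    (differentiableOn_const 1) hφ0 rfl hpull (Real.log θ / e) ?_ lev ?_ c hc hfac U hU hUc hUD y hy
    hsol i
  · intro p hp
    have : Fact p.Prime := ⟨hp⟩
    rw [hE]
    have h1 : ((X ^ e - 1) ^ k : ℤ[X]).map (Int.castRingHom (ZMod p)) = (X ^ e - 1) ^ k := by
      simp
    rw [h1]
    refine pow_ne_zero k ?_
    have h2 := (monic_X_pow_sub_C (1 : ZMod p) (n := e) (by omega)).ne_zero
    rwa [C_1] at h2
  · rw [← hC0, hE]
    simp
  · have h1 : Real.exp (Real.log θ / e) ^ e = θ := by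
      rw [← Real.exp_nat_mul, mul_div_cancel₀ _ he0.ne', Real.exp_log (by linarith)]
    have h3 : Real.exp (Real.log θ / e) ^ e < ‖deriv φ 0‖ ^ e := by rw [h1, hφ']; exact hθ
    exact lt_of_pow_lt_pow_left₀ e (norm_nonneg _) h3
  · intro F hF
    have h1 := sum_le_log F hF (fun p => (e : ℝ) * wl lev p) θ (hcost F hF)
    rw [le_div_iff₀ he0, Finset.sum_mul]
    refine (le_of_eq (Finset.sum_congr rfl fun p _ => ?_)).trans h1
    ring

end Pool.Agent.Results.MP_c83bfd_ag.LevelsRootsOfUnity
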